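import Pool.Agent.helper39.GJ.SpecS

namespace Pool.Agent.GJ

open Polynomial
open Pool.Agent.FJ (VT Om chiO Jac Tup)
open scoped nonZeroDivisors

noncomputable section

theorem S6_pow {l : ℕ} [NeZero l] {s : Om} (hs : s ^ l = 1) (x : ZMod l) (m : ℕ)
    (h : (m : ZMod l) = x) : s ^ x.val = s ^ m := by
  subst h
  rw [ZMod.val_natCast, ← pow_eq_pow_mod m hs]

theorem S6_one {l : ℕ} [NeZero l] {s : Om} (hs : s ^ l = 1) (m : ℕ)
    (h : (m : ZMod l) = 0) : s ^ m = 1 := by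
  rw [← S6_pow hs 0 m h, ZMod.val_zero, pow_zero]

/-- the index set of the pairs -/
abbrev S6_Q {l : ℕ} (D : Blk l) : Type :=
  Σ i : Fin D.K, {p : Fin (D.N i + 1) × Fin (D.N i + 1) // p.1 < p.2}

/-- the differences -/
def S6_c {l : ℕ} (D : Blk l) (q : S6_Q D) : Om := D.α q.1 q.2.1.1 - D.α q.1 q.2.1.2

theorem S6_ne {l : ℕ} [Fact l.Prime] (D : Blk l) (hD : D.Indep) (q : S6_Q D) : S6_c D q ≠ 0 := by
  classical
  intro h
  have hl0 : l ≠ 0 := (Fact.out (p := l.Prime)).ne_zero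
  obtain ⟨b, ⟨j, j'⟩, hj⟩ := q
  have h0 : D.α b j - D.α b j' = 0 := h
  have h1 := hD (fun b2 i i' => if h : b2 = b then
    (if h.symm ▸ j = i ∧ h.symm ▸ j' = i' then 1 else 0) else 0) 0 (fun σ _ _ _ => map_zero σ)
    (by
      rw [zero_pow hl0]
      symm
      apply Finset.prod_eq_zero (Finset.mem_univ b)
      apply Finset.prod_eq_zero (Finset.mem_univ j)
      apply Finset.prod_eq_zero (Finset.mem_Ioi.2 hj)
      rw [h0]
      simp) b j j' hj
  simp only [dite_true, and_self, if_true] at h1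
  have h2 : (l : ℤ) ≤ 1 := Int.le_of_dvd one_pos h1
  have h3 := (Fact.out (p := l.Prime)).two_le
  omega

/-- the automorphisms considered -/
def S6_G {l : ℕ} (D : Blk l) (s : Om) (σ : Om ≃+* Om) : Prop :=
  (∀ b j, σ (D.α b j) = D.α b j) ∧ σ s = s ∧ ∀ j (x : Om), x ^ D.m j = 1 → σ x = x

/-- the vectors realised -/
def S6_M {l : ℕ} [Fact l.Prime] (D : Blk l) (s : Om) (hs : s ^ l = 1) (β : S6_Q D → Om) :
    AddSubmonoid (S6_Q D → ZMod l) where
  carrier := {u | ∃ σ : Om ≃+* Om, S6_G D s σ ∧ ∀ q, σ (β q) = s ^ (u q).val * β q}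
  zero_mem' := by
    refine ⟨RingEquiv.refl Om, ⟨fun _ _ => rfl, rfl, fun _ _ _ => rfl⟩, fun q => ?_⟩
    show β q = s ^ (0 : ZMod l).val * β q
    rw [ZMod.val_zero, pow_zero, one_mul]
  add_mem' := by
    rintro u v ⟨σ, ⟨h1, h2, h3⟩, h4⟩ ⟨τ, ⟨g1, g2, g3⟩, g4⟩
    refine ⟨σ.trans τ, ⟨fun i j => ?_, ?_, fun j x hx => ?_⟩, fun q => ?_⟩
    · show τ (σ (D.α i j)) = D.α i j
      rw [h1, g1]
    · show τ (σ s) = s
      rw [h2, g2]
    · show τ (σ x) = x
      rw [h3 j x hx, g3 j x hx]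
    · show τ (σ (β q)) = s ^ (u q + v q).val * β q
      rw [h4, map_mul, map_pow, g2, g4, ← mul_assoc, ← pow_add,
        S6_pow hs (u q + v q) ((u q).val + (v q).val) (by
          rw [Nat.cast_add, ZMod.natCast_zmod_val, ZMod.natCast_zmod_val])]

/-- the subspace of the vectors realised -/
def S6_H {l : ℕ} [Fact l.Prime] (D : Blk l) (s : Om) (hs : s ^ l = 1) (β : S6_Q D → Om) :
    Submodule (ZMod l) (S6_Q D → ZMod l) where
  toAddSubmonoid := S6_M D s hs β
  smul_mem' := by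
    intro c u hu
    have h : c • u = c.val • u := by
      funext q
      rw [Pi.smul_apply, Pi.smul_apply, nsmul_eq_mul, ZMod.natCast_zmod_val, smul_eq_mul]
    rw [h]
    exact (S6_M D s hs β).nsmul_mem hu _

theorem S6_prod {l : ℕ} (D : Blk l) (G : ∀ i, Fin (D.N i + 1) → Fin (D.N i + 1) → Om) :
    ∏ q : S6_Q D, G q.1 q.2.1.1 q.2.1.2 = ∏ i, ∏ j, ∏ j' ∈ Finset.Ioi j, G i j j' := by
  rw [Fintype.prod_sigma]
  refine Finset.prod_congr rfl fun i _ => ?_
  have h1 : ∏ p : {p : Fin (D.N i + 1) × Fin (D.N i + 1) // p.1 < p.2}, G i p.1.1 p.1.2 =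
      ∏ p ∈ Finset.univ.filter (fun p : Fin (D.N i + 1) × Fin (D.N i + 1) => p.1 < p.2),
        G i p.1 p.2 := by
    exact (Finset.prod_subtype (p := fun p : Fin (D.N i + 1) × Fin (D.N i + 1) => p.1 < p.2)
      (Finset.univ.filter
      (fun p : Fin (D.N i + 1) × Fin (D.N i + 1) => p.1 < p.2)) (by simp)
      (fun p => G i p.1 p.2)).symm
  refine h1.trans ?_
  rw [Finset.prod_filter, Fintype.prod_prod_type]
  refine Finset.prod_congr rfl fun j _ => ?_
  rw [← Finset.prod_filter]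
  refine Finset.prod_congr ?_ fun _ _ => rfl
  ext j'
  simp

theorem S6_exists {l : ℕ} [Fact l.Prime] (D : Blk l) (hD : D.Indep) (s : Om)
    (hs : IsPrimitiveRoot s l) (β : S6_Q D → Om) (hβ : ∀ q, β q ^ l = S6_c D q) :
    S6_H D s hs.pow_eq_one β = ⊤ := by
  classical
  have hl0 : 0 < l := (Fact.out (p := l.Prime)).pos
  by_contra hne
  obtain ⟨f, hf0, hf⟩ := Submodule.exists_le_ker_of_lt_top _ (lt_top_iff_ne_top.2 hne)
  set e : S6_Q D → ZMod l := fun q => f (fun q' => if q = q' then 1 else 0) with he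
  have hfe : ∀ u, f u = ∑ q, u q * e q := by
    intro u
    rw [LinearMap.pi_apply_eq_sum_univ f u]
    rfl
  set E : ∀ i, Fin (D.N i + 1) → Fin (D.N i + 1) → ℤ := fun i j j' =>
    if h : j < j' then ((e ⟨i, (j, j'), h⟩).val : ℤ) else 0 with hE
  have hEq : ∀ q : S6_Q D, E q.1 q.2.1.1 q.2.1.2 = ((e q).val : ℤ) := by
    rintro ⟨i, ⟨j, j'⟩, h⟩
    simp only [hE]
    rw [dif_pos h]
  have key := hD E (∏ q, β q ^ (e q).val) ?_ ?_
  · apply hf0
    refine LinearMap.ext fun u => ?_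
    rw [hfe, LinearMap.zero_apply]
    refine Finset.sum_eq_zero fun q _ => ?_
    have h1 := key q.1 q.2.1.1 q.2.1.2 q.2.2
    rw [hEq] at h1
    have h2 : ((e q).val : ZMod l) = 0 := by
      have h3 := (ZMod.intCast_zmod_eq_zero_iff_dvd _ l).2 h1
      exact_mod_cast h3
    rw [ZMod.natCast_zmod_val] at h2
    rw [h2, mul_zero]
  · intro σ h1 h2 h3
    have h4 : ∀ q, ∃ m : ZMod l, σ (β q) = s ^ m.val * β q := by
      intro q
      have hb : β q ≠ 0 := by
        intro h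
        have := hβ q
        rw [h, zero_pow hl0.ne'] at this
        exact S6_ne D hD q this.symm
      have h5 : (σ (β q) / β q) ^ l = 1 := by
        rw [div_pow, ← map_pow, hβ]
        have h6 : σ (S6_c D q) = S6_c D q := by
          rw [S6_c, map_sub, h1, h1]
        rw [h6, div_self (S6_ne D hD q)]
      obtain ⟨m, hm, hm2⟩ := hs.eq_pow_of_pow_eq_one h5
      refine ⟨(m : ZMod l), ?_⟩
      rw [S6_pow hs.pow_eq_one _ m rfl, hm2, div_mul_cancel₀ _ hb]
    choose u hu using h4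
    have h5 : u ∈ S6_H D s hs.pow_eq_one β := ⟨σ, ⟨h1, h2 s hs.pow_eq_one, h3⟩, hu⟩
    have h6 : f u = 0 := hf h5
    rw [hfe] at h6
    rw [map_prod]
    have h7 : ∀ q, σ (β q ^ (e q).val) = s ^ ((u q).val * (e q).val) * β q ^ (e q).val := by
      intro q
      rw [map_pow, hu, mul_pow, pow_mul]
    rw [Finset.prod_congr rfl fun q _ => h7 q, Finset.prod_mul_distrib,
      Finset.prod_pow_eq_pow_sum, S6_one hs.pow_eq_one _ ?_, one_mul]
    rw [Nat.cast_sum, ← h6]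
    refine Finset.sum_congr rfl fun q _ => ?_
    rw [Nat.cast_mul, ZMod.natCast_zmod_val, ZMod.natCast_zmod_val]
  · rw [← Finset.prod_pow, ← S6_prod D (fun i j j' => (D.α i j - D.α i j') ^ E i j j')]
    refine Finset.prod_congr rfl fun q _ => ?_
    rw [hEq, zpow_natCast, ← pow_mul, mul_comm, pow_mul, hβ]
    rfl

theorem S6 : S6_stmt := by
  intro l _ D hl2 hD s hs κ hκ
  have hl0 : 0 < l := (Fact.out (p := l.Prime)).pos
  have hodd : Odd l := (Fact.out (p := l.Prime)).odd_of_ne_two hl2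
  have h1 : ∀ q : S6_Q D, ∃ β : Om, β ^ l = S6_c D q := fun q =>
    IsAlgClosed.exists_pow_nat_eq _ hl0
  choose β hβ using h1
  have h2 := S6_exists D hD _ hs β hβ
  have h3 : (fun q : S6_Q D => κ q.1 q.2.1.1 q.2.1.2) ∈
      S6_H D ((s : Omˣ) : Om) hs.pow_eq_one β := by
    rw [h2]
    exact Submodule.mem_top
  obtain ⟨σ, ⟨g1, g2, g3⟩, g4⟩ := h3
  have key : ∀ i j j', j < j' → ∀ b : Om, b ^ l = D.α i j - D.α i j' →
      σ b = ((s : Omˣ) : Om) ^ (κ i j j').val * b := by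
    intro i j j' h b hb
    have h4 := g4 ⟨i, (j, j'), h⟩
    have h5 := hβ ⟨i, (j, j'), h⟩
    have h6 := S6_ne D hD ⟨i, (j, j'), h⟩
    set B := β ⟨i, (j, j'), h⟩ with hB
    have hB0 : B ≠ 0 := by
      intro h7
      rw [h7, zero_pow hl0.ne'] at h5
      exact h6 h5.symm
    have h8 : (b / B) ^ l = 1 := by
      rw [div_pow, hb, h5]
      exact div_self h6
    obtain ⟨m, hm, hm2⟩ := hs.eq_pow_of_pow_eq_one h8
    have h9 : b = ((s : Omˣ) : Om) ^ m * B := by
      rw [hm2, div_mul_cancel₀ _ hB0]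
    rw [h9, map_mul, map_pow, g2, h4]
    ring
  refine ⟨σ, g1, g2, g3, fun i j j' hne b hb => ?_⟩
  rw [zpow_natCast]
  rcases lt_or_gt_of_ne hne with h | h
  · have h4 := key i j' j h (-b) (by
      rw [hodd.neg_pow, hb]
      ring)
    rw [map_neg, hκ i j' j] at h4
    linear_combination -h4
  · exact key i j j' h b hb

end

end Pool.Agent.GJ
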